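import Pool.Agent.H72.UV.Basic
import Pool.Agent.H72.UV.Targets

/-!
CASE1: unbounded connected sets give Many.
-/

set_option autoImplicit false

open Set Filter Topology

namespace Pool.Agent.H96.UV

open Pool.Agent.H72.UV

/-- isomorphisms over `K` between the parts `X` and `Y` -/
structure IsoM {M C : Type} (c : Str M C) (K : Set M) (f : M → M) (X Y : Set M) : Prop where
  bij : BijOn f X Y
  pres : ∀ l : List M, (∀ x ∈ l, x ∈ X) → c (l.map f) = c l
  fixK : ∀ k ∈ K, f k = k

lemma IsoM.symm {M C : Type} [Nonempty M] {c : Str M C} {K : Set M} {f : M → M} {X Y : Set M}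
    (h : IsoM c K f X Y) (hKX : K ⊆ X) : IsoM c K (Function.invFunOn f X) Y X := by
  have hinv : InvOn (Function.invFunOn f X) f X Y := h.bij.invOn_invFunOn
  have hb : BijOn (Function.invFunOn f X) Y X := hinv.symm.bijOn
    (by
      intro y hy
      obtain ⟨x, hx, rfl⟩ := h.bij.surjOn hy
      rw [hinv.1 hx]
      exact hx) h.bij.mapsTo
  refine ⟨hb, ?_, ?_⟩
  · intro l hl
    rw [← h.pres (l.map (Function.invFunOn f X)) ?_, List.map_map]
    · congr 1
      conv_rhs => rw [← List.map_id l]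
      apply List.map_congr_left
      intro x hx
      exact hinv.2 (hl x hx)
    · intro x hx
      obtain ⟨y, hy, rfl⟩ := List.mem_map.1 hx
      exact hb.mapsTo (hl y hy)
  · intro k hk
    have := hinv.1 (hKX hk)
    rwa [h.fixK k hk] at this

section

variable {M C : Type} {m : ℕ} {c : Str M C} {K F : Set M}

/-- isomorphisms map edges to edges -/
lemma IsoM.edge (hTT : T_TT) (hRI : T_RI) (hCALC : Calc c K) (hO : Outer m c K F)
    {f : M → M} {X Y : Set M} (h : IsoM c K f X Y) (hKX : K ⊆ X)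
    (hXF : ∀ x ∈ X, x ∉ K → x ∉ F) (hYF : ∀ x ∈ Y, x ∉ K → x ∉ F)
    [DecidableEq M] {W : Finset M} (hW : W ∈ Edges m c K) (hWX : (W : Set M) ⊆ X) :
    W.image f ∈ Edges m c K := by
  obtain ⟨hcard, hne, hWK, hind⟩ := hW
  have hinj : InjOn f X := h.bij.injOn
  have himK : ∀ w ∈ W, f w ∉ K := by
    intro w hw hk
    have := hinj (hWX hw) (hKX hk) (h.fixK _ hk).symm
    exact hWK w hw (this ▸ hk)
  -- TT c K W id f
  have hTW : TT c K (W : Set M) (id : M → M) f := by
    set w : Fin W.card → M := fun i => W.equivFin.symm i with hw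
    have hwW : ∀ i, w i ∈ W := fun i => (W.equivFin.symm i).2
    have hwinj : Function.Injective w := fun i j hij =>
      W.equivFin.symm.injective (Subtype.ext hij)
    have hfwinj : Function.Injective (f ∘ w) := fun i j hij =>
      hwinj (hinj (hWX (hwW i)) (hWX (hwW j)) hij)
    have hKT : KT c K univ w (f ∘ w) := by
      intro l hl _
      rw [← h.pres (l.map (Sum.elim id w)) ?_, List.map_map]
      · congr 1
        apply List.map_congr_left
        rintro (y | i) hy
        · exact h.fixK y (hl y hy)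
        · rfl
      · intro x hx
        obtain ⟨y, hy, rfl⟩ := List.mem_map.1 hx
        rcases y with y | i
        · exact hKX (hl y hy)
        · exact hWX (hwW i)
    have hTw : TT c K univ w (f ∘ w) := by
      refine hO.1 _ w (f ∘ w) hcard hwinj hfwinj ?_ ?_ hKT
      · rintro i (hi | hi)
        · exact hWK _ (hwW i) hi
        · exact hXF _ (hWX (hwW i)) (hWK _ (hwW i)) hi
      · rintro i (hi | hi)
        · exact himK _ (hwW i) hi
        · exact hYF _ (h.bij.mapsTo (hWX (hwW i))) (himK _ (hwW i)) hi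
    have hr : w '' univ = (W : Set M) := by
      ext y
      constructor
      · rintro ⟨i, -, rfl⟩
        exact hwW i
      · intro hy
        refine ⟨W.equivFin ⟨y, hy⟩, mem_univ _, ?_⟩
        simp only [hw, Equiv.symm_apply_apply]
    have := (hRI M C c K (Fin W.card) M w univ ∅ hwinj.injOn (disjoint_empty _) id f).1
    rw [hr] at this
    rw [this]
    exact hTw
  refine ⟨Finset.card_image_le.trans hcard, hne.image f, ?_, ?_⟩
  · intro x hx
    obtain ⟨w, hw, rfl⟩ := Finset.mem_image.1 hx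
    exact himK w hw
  · intro S T hST hdis hS hT hI
    rw [Finset.coe_image] at hST
    set S' : Set M := (W : Set M) ∩ f ⁻¹' S with hS'
    set T' : Set M := (W : Set M) ∩ f ⁻¹' T with hT'
    have hfS : f '' S' = S := by
      ext y
      constructor
      · rintro ⟨x, hx, rfl⟩
        exact hx.2
      · intro hy
        obtain ⟨x, hx, rfl⟩ : y ∈ f '' (W : Set M) := hST ▸ Or.inl hy
        exact ⟨x, ⟨hx, hy⟩, rfl⟩
    have hfT : f '' T' = T := by
      ext y
      constructor
      · rintro ⟨x, hx, rfl⟩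
        exact hx.2
      · intro hy
        obtain ⟨x, hx, rfl⟩ : y ∈ f '' (W : Set M) := hST ▸ Or.inr hy
        exact ⟨x, ⟨hx, hy⟩, rfl⟩
    have hdis' : Disjoint S' T' := by
      rw [disjoint_left]
      intro x hx hx'
      exact disjoint_left.1 hdis hx.2 hx'.2
    have hun : S' ∪ T' = (W : Set M) := by
      ext x
      constructor
      · rintro (hx | hx)
        · exact hx.1
        · exact hx.1
      · intro hx
        have : f x ∈ S ∪ T := hST ▸ mem_image_of_mem f hx
        rcases this with h1 | h1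
        · exact Or.inl ⟨hx, h1⟩
        · exact Or.inr ⟨hx, h1⟩
    have hI' : Ind c K f S' T' := by
      have := (hRI M C c K M M f S' T' (hinj.mono (hun ▸ hWX)) hdis' id id).2
      rw [hfS, hfT] at this
      exact this.1 hI
    refine hind S' T' hun hdis' ?_ ?_ ?_
    · obtain ⟨y, hy⟩ := hS
      rw [← hfS] at hy
      obtain ⟨x, hx, -⟩ := hy
      exact ⟨x, hx⟩
    · obtain ⟨y, hy⟩ := hT
      rw [← hfT] at hy
      obtain ⟨x, hx, -⟩ := hy
      exact ⟨x, hx⟩
    · refine hCALC.inv M f id S' T' (W.finite_toSet.subset (hun ▸ subset_union_left))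
        (W.finite_toSet.subset (hun ▸ subset_union_right)) hdis' ?_ hI'
      rw [hun]
      exact (hTT M C c K M (W : Set M)).2.2.1 _ _ hTW

/-- isomorphisms map connected sets to connected sets -/
lemma IsoM.conn (hTT : T_TT) (hRI : T_RI) (hCALC : Calc c K) (hO : Outer m c K F)
    {f : M → M} {X Y : Set M} (h : IsoM c K f X Y) (hKX : K ⊆ X)
    (hXF : ∀ x ∈ X, x ∉ K → x ∉ F) (hYF : ∀ x ∈ Y, x ∉ K → x ∉ F)
    [DecidableEq M] {D : Finset M} (hD : Conn {W | W ∈ Edges m c K ∧ ∀ x ∈ W, x ∉ F} D)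
    (hDX : (D : Set M) ⊆ X) : Conn {W | W ∈ Edges m c K ∧ ∀ x ∈ W, x ∉ F} (D.image f) := by
  obtain ⟨hne, hD⟩ := hD
  refine ⟨hne.image f, ?_⟩
  rintro S ⟨y, hy, hyS⟩ ⟨z, hz, hzS⟩
  obtain ⟨x, hx, rfl⟩ := Finset.mem_image.1 hy
  obtain ⟨x', hx', rfl⟩ := Finset.mem_image.1 hz
  obtain ⟨W, ⟨hWE, hWF⟩, hWD, ⟨w, hw, hwS⟩, w', hw', hwS'⟩ := hD (f ⁻¹' S) ⟨x, hx, hyS⟩ ⟨x', hx', hzS⟩
  have hWX : (W : Set M) ⊆ X := fun u hu => hDX (hWD hu)
  have hE := h.edge hTT hRI hCALC hO hKX hXF hYF hWE hWX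
  refine ⟨W.image f, ⟨hE, ?_⟩, Finset.image_subset_image hWD, ⟨f w, Finset.mem_image_of_mem f hw,
    hwS⟩, f w', Finset.mem_image_of_mem f hw', hwS'⟩
  intro u hu
  have huK := hE.2.2.1 u hu
  obtain ⟨v, hv, rfl⟩ := Finset.mem_image.1 hu
  exact hYF _ (h.bij.mapsTo (hWX hv)) huK

end

/-- connected sets covered by far apart sets are contained in one of them -/
lemma conn_subset {V : Type} {E : Set (Finset V)} {T : ℕ → Finset V}
    (hfar : ∀ W ∈ E, ∀ n n', n ≠ n' → (∃ x ∈ W, x ∈ T n) → ∀ x ∈ W, x ∉ T n')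
    {D : Finset V} (hD : Conn E D) (hDT : ∀ x ∈ D, ∃ n, x ∈ T n) {n : ℕ} {x : V} (hx : x ∈ D)
    (hxn : x ∈ T n) : D ⊆ T n := by
  by_contra h
  rw [Finset.not_subset] at h
  obtain ⟨y, hy, hyn⟩ := h
  obtain ⟨W, hW, hWD, hWn, z, hz, hzn⟩ := hD.2 (T n : Set V) ⟨x, hx, hxn⟩ ⟨y, hy, hyn⟩
  obtain ⟨n', hn'⟩ := hDT z (hWD hz)
  have hne : n ≠ n' := by
    rintro rfl
    exact hzn hn'
  exact hfar W hW n n' hne hWn z hz hn'

theorem case1 (hTT : T_TT) (hRI : T_RI) (hCALC : T_CALC) (hLOCF : T_LOCF) (hHYP : T_HYP) :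
    T_CASE1 := by
  classical
  intro M C c m K F hG hF hO hunb
  set E : Set (Finset M) := {W | W ∈ Edges m c K ∧ ∀ x ∈ W, x ∉ F} with hE
  have hcalc := hCALC M C c m K hG
  obtain ⟨T, hT1, hT2, hT3⟩ := hHYP M E m (fun W hW => hW.1.1)
    (fun x => (hLOCF M C c m K hG x).subset fun W hW => ⟨hW.1.1, hW.2⟩) hunb
    (fun n => 2 + n * (m + 1)) (fun n => by omega)
  have hTne : ∀ n, (T n).Nonempty := fun n => (hT1 n).1.1
  -- elements of `T n` are outside of `K ∪ F`
  have hTout : ∀ n, ∀ x ∈ T n, x ∉ K ∧ x ∉ F := by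
    intro n x hx
    have h2 : 1 < (T n).card := by
      have := (hT1 n).2.1
      omega
    obtain ⟨y, hy, hyx⟩ := Finset.exists_mem_ne h2 x
    obtain ⟨W, hW, -, ⟨z, hz, hzx⟩, -⟩ := (hT1 n).1.2 {x} ⟨x, hx, rfl⟩ ⟨y, hy, hyx⟩
    rw [mem_singleton_iff] at hzx
    subst hzx
    exact ⟨hW.1.2.2.1 z hz, hW.2 z hz⟩
  have hTuniq : ∀ n n' x, x ∈ T n → x ∈ T n' → n = n' := by
    intro n n' x hx hx'
    by_contra hne
    exact Finset.disjoint_left.1 (hT2 n n' hne) hx hx'
  -- cardinalities determine the index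
  have hcardinj : ∀ n n', (T n).card = (T n').card → n = n' := by
    intro n n' h
    have h1 := (hT1 n).2.1
    have h2 := (hT1 n).2.2
    have h3 := (hT1 n').2.1
    have h4 := (hT1 n').2.2
    rw [h] at h1 h2
    by_contra hne
    rcases Nat.lt_or_gt_of_ne hne with hlt | hlt
    · have : (n + 1) * (m + 1) ≤ n' * (m + 1) := Nat.mul_le_mul_right _ hlt
      rw [Nat.add_mul] at this
      omega
    · have : (n' + 1) * (m + 1) ≤ n * (m + 1) := Nat.mul_le_mul_right _ hlt
      rw [Nat.add_mul] at this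
      omega
  -- the countable structure
  set U : Set M := K ∪ ⋃ n, (T n : Set M) with hU
  have hUc : U.Countable := hG.finK.countable.union
    (countable_iUnion fun n => (T n).countable_toSet)
  have hcount : Countable U := hUc
  let sg : (ℕ → Bool) → Set M := fun x => K ∪ ⋃ i, (T (2 * i + (x i).toNat) : Set M)
  have hsgU : ∀ x, sg x ⊆ U := by
    rintro x y (hy | hy)
    · exact Or.inl hy
    · obtain ⟨i, hi⟩ := mem_iUnion.1 hy
      exact Or.inr (mem_iUnion.2 ⟨_, hi⟩)
  have hsgK : ∀ x, K ⊆ sg x := fun x => subset_union_left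
  have hsgF : ∀ x, ∀ y ∈ sg x, y ∉ K → y ∉ F := by
    rintro x y (hy | hy) hyK
    · exact absurd hy hyK
    · obtain ⟨i, hi⟩ := mem_iUnion.1 hy
      exact (hTout _ y hi).2
  have hsgT : ∀ x n, ∀ y ∈ T n, y ∈ sg x → ∃ i, n = 2 * i + (x i).toNat := by
    rintro x n y hy (h | h)
    · exact absurd h (hTout n y hy).1
    · obtain ⟨i, hi⟩ := mem_iUnion.1 h
      exact ⟨i, hTuniq _ _ y hy hi⟩
  have hKfin : {a : U | (a : M) ∈ K}.Finite :=
    hG.finK.preimage Subtype.val_injective.injOn
  refine ⟨U, hcount, fun l => c (l.map Subtype.val), hKfin.toFinset, fun x => {a | (a : M) ∈ sg x},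
    below_self_comap Subtype.val_injective, ?_, ?_, ?_, ?_⟩
  · intro a
    by_cases haK : (a : M) ∈ K
    · have : {x : ℕ → Bool | a ∈ {a : U | (a : M) ∈ sg x}} = univ := by
        ext x
        simp only [mem_ofPred_eq, mem_univ, iff_true]
        exact hsgK x haK
      rw [this]
      exact MeasurableSet.univ
    · have : {x : ℕ → Bool | a ∈ {a : U | (a : M) ∈ sg x}} =
          ⋃ i, (fun x : ℕ → Bool => x i) ⁻¹' {b | (a : M) ∈ T (2 * i + b.toNat)} := by
        ext x
        simp only [mem_ofPred_eq, mem_iUnion, mem_preimage]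
        constructor
        · rintro (h | h)
          · exact absurd h haK
          · exact mem_iUnion.1 h
        · intro h
          exact Or.inr (mem_iUnion.2 h)
      rw [this]
      exact MeasurableSet.iUnion fun i => measurable_pi_apply i MeasurableSet.of_discrete
  · intro x
    have hch : ∀ i : ℕ, ∃ y, y ∈ T (2 * i + (x i).toNat) := fun i => hTne _
    choose g hg using hch
    have hgU : ∀ i, g i ∈ U := fun i => Or.inr (mem_iUnion.2 ⟨_, hg i⟩)
    refine infinite_of_injective_forall_mem (f := fun i : ℕ => (⟨g i, hgU i⟩ : U)) ?_ ?_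
    · intro i j hij
      have h1 : g i = g j := congrArg Subtype.val hij
      have h2 := hTuniq _ _ (g i) (hg i) (h1 ▸ hg j)
      have h3 : (x i).toNat ≤ 1 := Bool.toNat_le _
      have h4 : (x j).toNat ≤ 1 := Bool.toNat_le _
      omega
    · intro i
      exact Or.inr (mem_iUnion.2 ⟨i, hg i⟩)
  · intro x a ha
    rw [Finset.mem_coe, Set.Finite.mem_toFinset] at ha
    exact hsgK x ha
  · intro x
    refine (countable_singleton x).mono ?_
    rintro y ⟨f, ⟨hbij, hpres⟩, hfix⟩
    rw [mem_singleton_iff]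
    -- extend `f` to `M`
    set f' : M → M := fun z => if h : z ∈ U then (f ⟨z, h⟩ : M) else z with hf'
    have hf'U : ∀ a : U, f' a = f a := by
      intro a
      simp only [hf']
      rw [dif_pos a.2]
    have hiso : IsoM c K f' (sg x) (sg y) := by
      refine ⟨⟨?_, ?_, ?_⟩, ?_, ?_⟩
      · intro z hz
        have := hbij.mapsTo (show (⟨z, hsgU x hz⟩ : U) ∈ {a : U | (a : M) ∈ sg x} from hz)
        change ((f ⟨z, hsgU x hz⟩ : U) : M) ∈ sg y at this
        rw [← hf'U] at this
        exact this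
      · intro z hz z' hz' h
        have h1 := hf'U ⟨z, hsgU x hz⟩
        have h2 := hf'U ⟨z', hsgU x hz'⟩
        simp only at h1 h2
        have h3 : f ⟨z, hsgU x hz⟩ = f ⟨z', hsgU x hz'⟩ := Subtype.ext (by rw [← h1, ← h2, h])
        have := hbij.injOn (show (⟨z, hsgU x hz⟩ : U) ∈ {a : U | (a : M) ∈ sg x} from hz)
          (show (⟨z', hsgU x hz'⟩ : U) ∈ {a : U | (a : M) ∈ sg x} from hz') h3
        exact congrArg Subtype.val this
      · intro z hz
        obtain ⟨a, ha, haz⟩ := hbij.surjOn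
          (show (⟨z, hsgU y hz⟩ : U) ∈ {a : U | (a : M) ∈ sg y} from hz)
        exact ⟨a, ha, by rw [hf'U, haz]⟩
      · intro l hl
        have this : c (((l.attach.map fun z => (⟨z.1, hsgU x (hl z.1 z.2)⟩ : U)).map f).map
            Subtype.val) = c ((l.attach.map fun z => (⟨z.1, hsgU x (hl z.1 z.2)⟩ : U)).map
            Subtype.val) :=
          hpres (l.attach.map fun z => (⟨z.1, hsgU x (hl z.1 z.2)⟩ : U)) (by
          intro a ha
          obtain ⟨z, -, rfl⟩ := List.mem_map.1 ha
          exact hl z.1 z.2)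
        rw [List.map_map, List.map_map, List.map_map] at this
        have e1 : (l.attach.map ((Subtype.val : U → M) ∘ fun z : {z // z ∈ l} =>
            (⟨z.1, hsgU x (hl z.1 z.2)⟩ : U))) = l := by
          conv_rhs => rw [← List.attach_map_subtype_val l]
          rfl
        have e2 : (l.attach.map (((Subtype.val : U → M) ∘ f) ∘ fun z : {z // z ∈ l} =>
            (⟨z.1, hsgU x (hl z.1 z.2)⟩ : U))) = l.map f' := by
          conv_rhs => rw [← List.attach_map_subtype_val l, List.map_map]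
          apply List.map_congr_left
          rintro ⟨z, hz⟩ _
          exact (hf'U ⟨z, hsgU x (hl z hz)⟩).symm
        rw [e1, e2] at this
        exact this
      · intro k hk
        have h1 := hf'U ⟨k, Or.inl hk⟩
        simp only at h1
        rw [h1, hfix ⟨k, Or.inl hk⟩ (hKfin.mem_toFinset.2 hk)]
    have hMne : Nonempty M := ⟨(hTne 0).choose⟩
    have hiso' := hiso.symm (hsgK x)
    set g : M → M := Function.invFunOn f' (sg x) with hg
    have hgf : ∀ z ∈ sg x, g (f' z) = z := fun z hz => (hiso.bij.invOn_invFunOn).1 hz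
    funext i
    -- the set `T n` used by `x`
    set n := 2 * i + (x i).toNat with hn
    have hTnX : (T n : Set M) ⊆ sg x := fun z hz => Or.inr (mem_iUnion.2 ⟨i, hz⟩)
    have hconn := hiso.conn hTT hRI hcalc hO (hsgK x) (hsgF x) (hsgF y) (hT1 n).1 hTnX
    have hcov : ∀ z ∈ (T n).image f', z ∉ K := by
      intro z hz hzK
      obtain ⟨w, hw, rfl⟩ := Finset.mem_image.1 hz
      have h1 := hiso.bij.injOn (hTnX hw) (hsgK x hzK) (hiso.fixK _ hzK).symm
      exact (hTout n w hw).1 (h1 ▸ hzK)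
    have hcov2 : ∀ z ∈ (T n).image f', ∃ j, z ∈ T (2 * j + (y j).toNat) := by
      intro z hz
      have hzK := hcov z hz
      obtain ⟨w, hw, rfl⟩ := Finset.mem_image.1 hz
      rcases hiso.bij.mapsTo (hTnX hw) with h | h
      · exact absurd h hzK
      · exact mem_iUnion.1 h
    obtain ⟨w0, hw0⟩ := hTne n
    have hfw0 : f' w0 ∈ (T n).image f' := Finset.mem_image_of_mem f' hw0
    obtain ⟨j, hj⟩ := hcov2 _ hfw0
    set n' := 2 * j + (y j).toNat with hn'
    have hsub : (T n).image f' ⊆ T n' :=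
      conn_subset hT3 hconn (fun z hz => (hcov2 z hz).imp' _ fun _ h => h) hfw0 hj
    have hTnY : (T n' : Set M) ⊆ sg y := fun z hz => Or.inr (mem_iUnion.2 ⟨j, hz⟩)
    have hconn' := hiso'.conn hTT hRI hcalc hO (hsgK y) (hsgF y) (hsgF x) (hT1 n').1 hTnY
    have hcov' : ∀ z ∈ (T n').image g, z ∉ K := by
      intro z hz hzK
      obtain ⟨w, hw, rfl⟩ := Finset.mem_image.1 hz
      have h1 := hiso'.bij.injOn (hTnY hw) (hsgK y hzK) (hiso'.fixK _ hzK).symm
      exact (hTout n' w hw).1 (h1 ▸ hzK)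
    have hcov2' : ∀ z ∈ (T n').image g, ∃ k, z ∈ T k := by
      intro z hz
      have hzK := hcov' z hz
      obtain ⟨w, hw, rfl⟩ := Finset.mem_image.1 hz
      rcases hiso'.bij.mapsTo (hTnY hw) with h | h
      · exact absurd h hzK
      · obtain ⟨k, hk⟩ := mem_iUnion.1 h
        exact ⟨_, hk⟩
    have hw0' : w0 ∈ (T n').image g :=
      Finset.mem_image.2 ⟨f' w0, hsub hfw0, hgf w0 (hTnX hw0)⟩
    have hsub' : (T n').image g ⊆ T n := conn_subset hT3 hconn' hcov2' hw0' hw0
    have hle1 : (T n).card ≤ (T n').card := by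
      rw [← Finset.card_image_of_injOn (hiso.bij.injOn.mono hTnX)]
      exact Finset.card_le_card hsub
    have hle2 : (T n').card ≤ (T n).card := by
      rw [← Finset.card_image_of_injOn (hiso'.bij.injOn.mono hTnY)]
      exact Finset.card_le_card hsub'
    have hnn : n = n' := hcardinj _ _ (le_antisymm hle1 hle2)
    have h3 : (x i).toNat ≤ 1 := Bool.toNat_le _
    have h4 : (y j).toNat ≤ 1 := Bool.toNat_le _
    have hij : i = j := by omega
    subst hij
    have h5 : (x i).toNat = (y i).toNat := by omega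
    revert h5
    cases x i <;> cases y i <;> simp

end Pool.Agent.H96.UV
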