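import Pool.Agent.H72.UV.Basic
import Pool.Agent.H72.UV.Targets

/-!
EXCH: exchanging two cells of the same type is an automorphism.
-/

set_option autoImplicit false

open Set Filter Topology

namespace Pool.Agent.H96.UV

open Pool.Agent.H72.UV

theorem exch (hTT : T_TT) (hRI : T_RI) (hCALC : T_CALC) (hCMP : T_CMP) : T_EXCH := by
  classical
  intro M C c m K F hG hO Z σ hZfin hZ hσZ hZZ hZE hσZE hinv hfix hT l
  by_cases hl : m < l.length
  · obtain ⟨v, hv⟩ := hG.ar
    rw [hv l hl, hv (l.map σ) (by simpa using hl)]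
  have hl : l.length ≤ m := not_lt.1 hl
  set A : Set M := {x | x ∈ l ∧ x ∈ Z} with hA
  set A' : Set M := {x | x ∈ l ∧ x ∈ σ '' Z} with hA'
  set B : Set M := {x | x ∈ l ∧ x ∉ Z ∧ x ∉ σ '' Z ∧ x ∉ K} with hB
  have hlfin : {x | x ∈ l}.Finite := List.finite_toSet l
  have hAf : A.Finite := hlfin.subset fun x hx => hx.1
  have hAf' : A'.Finite := hlfin.subset fun x hx => hx.1
  have hBf : B.Finite := hlfin.subset fun x hx => hx.1
  have hAZ : A ⊆ Z := fun x hx => hx.2
  have hAZ' : A' ⊆ σ '' Z := fun x hx => hx.2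
  have hσσ : σ '' (σ '' Z) = Z := by
    rw [← image_comp]
    have : (σ ∘ σ : M → M) = id := funext hinv
    rw [this, image_id]
  have hσA' : σ '' A' ⊆ Z := by
    have := image_mono (f := σ) hAZ'
    rwa [hσσ] at this
  have hσA : σ '' A ⊆ σ '' Z := image_mono hAZ
  have hBσ : σ '' B = B := by
    ext x
    constructor
    · rintro ⟨y, hy, rfl⟩
      rw [hfix y hy.2.1 hy.2.2.1]
      exact hy
    · intro hx
      exact ⟨x, hx, hfix x hx.2.1 hx.2.2.1⟩
  have hKZ : ∀ x ∈ K, x ∉ Z := fun x hx hz => disjoint_left.1 hZ hz (Or.inl hx)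
  have hKσZ : ∀ x ∈ K, x ∉ σ '' Z := fun x hx hz => disjoint_left.1 hσZ hz (Or.inl hx)
  have hKfix : ∀ x ∈ K, σ x = x := fun x hx => hfix x (hKZ x hx) (hKσZ x hx)
  have hcard : A.ncard + A'.ncard + B.ncard ≤ m := by
    have h1 : A.ncard + A'.ncard = (A ∪ A').ncard := by
      rw [ncard_union_eq _ hAf hAf']
      exact hZZ.mono hAZ hAZ'
    have h2 : (A ∪ A').ncard + B.ncard = (A ∪ A' ∪ B).ncard := by
      rw [ncard_union_eq _ (hAf.union hAf') hBf]
      rw [disjoint_left]
      rintro x (hx | hx) hxB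
      · exact hxB.2.1 hx.2
      · exact hxB.2.2.1 hx.2
    rw [h1, h2]
    refine le_trans ?_ hl
    refine le_trans ?_ (List.toFinset_card_le l)
    rw [← ncard_coe_finset]
    refine ncard_le_ncard ?_ (Finset.finite_toSet _)
    rintro x ((hx | hx) | hx)
    · simpa using hx.1
    · simpa using hx.1
    · simpa using hx.1
  have hAA' : Disjoint A A' := hZZ.mono hAZ hAZ'
  have hAB : Disjoint A B := by
    rw [disjoint_left]
    exact fun x hx hxB => hxB.2.1 hx.2
  have hA'B : Disjoint A' B := by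
    rw [disjoint_left]
    exact fun x hx hxB => hxB.2.2.1 hx.2
  have hncA : (A' ∪ B).ncard = A'.ncard + B.ncard := ncard_union_eq hA'B hAf' hBf
  have hσZfin : (σ '' Z).Finite := hZfin.image σ
  -- independence
  have hI1 : Ind c K (id : M → M) A (A' ∪ B) := by
    refine hCMP M C c m K F hG hO Z hZ hZE A (A' ∪ B) hAf (hAf'.union hBf) hAZ ?_ ?_ ?_
    · rw [disjoint_left]
      rintro x (hx | hx) hxZ
      · exact disjoint_left.1 hZZ hxZ hx.2
      · exact hx.2.1 hxZ
    · rw [disjoint_left]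
      rintro x (hx | hx) hxK
      · exact hKσZ x hxK hx.2
      · exact hx.2.2.2 hxK
    · rw [hncA]; omega
  have hI2 : Ind c K (id : M → M) A' B := by
    refine hCMP M C c m K F hG hO (σ '' Z) hσZ hσZE A' B hAf' hBf hAZ' ?_ ?_ ?_
    · rw [disjoint_left]
      exact fun x hx hxZ => hx.2.2.1 hxZ
    · rw [disjoint_left]
      exact fun x hx hxK => hx.2.2.2 hxK
    · omega
  have hI3 : Ind c K (id : M → M) (σ '' A) (σ '' (A' ∪ B)) := by
    rw [image_union, hBσ]
    refine hCMP M C c m K F hG hO (σ '' Z) hσZ hσZE (σ '' A) (σ '' A' ∪ B) (hAf.image _)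
      ((hAf'.image _).union hBf) hσA ?_ ?_ ?_
    · rw [disjoint_left]
      rintro x (hx | hx) hxZ
      · exact disjoint_left.1 hZZ (hσA' hx) hxZ
      · exact hx.2.2.1 hxZ
    · rw [disjoint_left]
      rintro x (hx | hx) hxK
      · exact hKZ x hxK (hσA' hx)
      · exact hx.2.2.2 hxK
    · rw [ncard_image_of_injective _ σ.injective]
      have := ncard_union_le (σ '' A') B
      rw [ncard_image_of_injective _ σ.injective] at this
      omega
  have hI4 : Ind c K (id : M → M) (σ '' A') (σ '' B) := by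
    rw [hBσ]
    refine hCMP M C c m K F hG hO Z hZ hZE (σ '' A') B (hAf'.image _) hBf hσA' ?_ ?_ ?_
    · rw [disjoint_left]
      exact fun x hx hxZ => hx.2.1 hxZ
    · rw [disjoint_left]
      exact fun x hx hxK => hx.2.2.2 hxK
    · rw [ncard_image_of_injective _ σ.injective]
      omega
  have hdis1 : Disjoint A (A' ∪ B) := by
    rw [disjoint_union_right]
    exact ⟨hAA', hAB⟩
  have hI3' : Ind c K (σ : M → M) A (A' ∪ B) :=
    (hRI M C c K M M σ A (A' ∪ B) σ.injective.injOn hdis1 id id).2.1 hI3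
  have hI4' : Ind c K (σ : M → M) A' B :=
    (hRI M C c K M M σ A' B σ.injective.injOn hA'B id id).2.1 hI4
  -- types
  obtain ⟨hkt, hrefl, hsymm, htrans, hcongr, hrestr⟩ := hTT M C c K M Z
  have hTA : TT c K A (id : M → M) σ := hrestr A _ _ hAZ hT
  have hTσZ : TT c K (σ '' Z) (id : M → M) σ := by
    rw [(hRI M C c K M M σ Z ∅ σ.injective.injOn (disjoint_empty Z) id σ).1]
    have h1 : (σ ∘ σ : M → M) = id := funext hinv
    rw [h1]
    exact hsymm _ _ hT
  have hTA' : TT c K A' (id : M → M) σ := (hTT M C c K M (σ '' Z)).2.2.2.2.2 A' _ _ hAZ' hTσZ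
  have hTB : TT c K B (id : M → M) σ := by
    obtain ⟨_, hr, _, _, hc, _⟩ := hTT M C c K M B
    exact hc id id id σ (fun _ _ => rfl) (fun i hi => (hfix i hi.2.1 hi.2.2.1).symm) (hr id)
  have hcalc := hCALC M C c m K hG
  have hTAB : TT c K (A' ∪ B) (id : M → M) σ :=
    hcalc.un M id σ A' B hAf' hBf hA'B hI2 hI4' hTA' hTB
  have hTAll : TT c K (A ∪ (A' ∪ B)) (id : M → M) σ :=
    hcalc.un M id σ A (A' ∪ B) hAf (hAf'.union hBf) hdis1 hI1 hI3' hTA hTAB
  have hKT := (hTT M C c K M (A ∪ (A' ∪ B))).1 _ _ hTAll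
  have := hKT (l.map fun x => if x ∈ K then Sum.inl x else Sum.inr x) (by
    intro y hy
    obtain ⟨x, hx, hxy⟩ := List.mem_map.1 hy
    by_cases hxK : x ∈ K
    · rw [if_pos hxK] at hxy
      rw [← Sum.inl_injective hxy]
      exact hxK
    · rw [if_neg hxK] at hxy
      exact absurd hxy (by simp)) (by
    intro y hy
    obtain ⟨x, hx, hxy⟩ := List.mem_map.1 hy
    by_cases hxK : x ∈ K
    · rw [if_pos hxK] at hxy
      exact absurd hxy (by simp)
    · rw [if_neg hxK] at hxy
      rw [← Sum.inr_injective hxy]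
      by_cases h1 : x ∈ Z
      · exact Or.inl ⟨hx, h1⟩
      · by_cases h2 : x ∈ σ '' Z
        · exact Or.inr (Or.inl ⟨hx, h2⟩)
        · exact Or.inr (Or.inr ⟨hx, h1, h2, hxK⟩))
  rw [List.map_map, List.map_map] at this
  have e1 : (l.map ((Sum.elim id id) ∘ fun x : M => if x ∈ K then Sum.inl x else Sum.inr x)) = l := by
    conv_rhs => rw [← List.map_id l]
    apply List.map_congr_left
    intro x _
    by_cases hxK : x ∈ K
    · simp [hxK]
    · simp [hxK]
  have e2 : (l.map ((Sum.elim id σ) ∘ fun x : M => if x ∈ K then Sum.inl x else Sum.inr x))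
      = l.map σ := by
    apply List.map_congr_left
    intro x _
    by_cases hxK : x ∈ K
    · simp [hxK, hKfix x hxK]
    · simp [hxK]
  rw [e1, e2] at this
  exact this.symm

end Pool.Agent.H96.UV
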