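import Pool.Agent.H72.UV.Basic
import Pool.Agent.H72.UV.Targets

/-!
ORB: finitely many orbits of the finitary automorphism group.
-/

set_option autoImplicit false

open Set Filter Topology

namespace Pool.Agent.H96.UV

open Pool.Agent.H72.UV

/-- finite determination of the types of `r`-tuples -/
lemma exists_L {M C : Type} {m : ℕ} {c : Str M C} {K : Set M} (hG : Good m c K) (r : ℕ) :
    ∃ L : (Fin r → M) → ℕ, (range L).Finite ∧ ∀ x x', L x = L x' → TT c K univ x x' := by
  obtain ⟨τ, hτ, ι, hι, U, l, hFree, hlK, h⟩ := hG.fd (Fin r) inferInstance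
  have hex : ∀ (t : τ) (x : Fin r → M), ∃ v ∈ range c, ∀ᶠ u in (U t : Filter (ι t → M)),
      c ((l t).map (Sum.elim id (Sum.elim x u))) = v := by
    intro t x
    obtain ⟨v, ⟨y, hy⟩, hv⟩ := exists_ae (U t)
      (fun u => c ((l t).map (Sum.elim id (Sum.elim x u))))
      (hG.fin.subset (by rintro _ ⟨u, rfl⟩; exact mem_range_self _))
    exact ⟨v, by rw [← hy]; exact mem_range_self _, hv⟩
  choose v hv hv' using hex
  set g : (Fin r → M) → (τ → C) := fun x t => v t x with hg
  have hfin : (range g).Finite := by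
    refine (Set.Finite.pi fun _ : τ => hG.fin).subset ?_
    rintro _ ⟨x, rfl⟩ t _
    exact hv t x
  have : Countable (range g) := hfin.countable
  obtain ⟨f, hf⟩ := Countable.exists_injective_nat (range g)
  have : Finite (range g) := hfin
  refine ⟨fun x => f ⟨g x, mem_range_self x⟩, ?_, ?_⟩
  · refine (finite_range f).subset ?_
    rintro _ ⟨x, rfl⟩
    exact mem_range_self _
  · intro x x' hxx
    have hgx : g x = g x' := congrArg Subtype.val (hf hxx)
    refine h x x' fun t => ?_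
    filter_upwards [hv' t x, hv' t x'] with u h1 h2
    rw [h1, h2]
    exact congrFun hgx t

/-- choosing representatives -/
lemma exists_reps {X Y : Type*} (f : X → Y) (hf : (range f).Finite) :
    ∃ E : Set X, E.Finite ∧ ∀ a, ∃ e ∈ E, f e = f a := by
  have : Finite (range f) := hf
  have h : ∀ y : range f, ∃ x, f x = y := fun y => y.2
  choose g hg using h
  refine ⟨range g, finite_range g, fun a => ⟨g ⟨f a, mem_range_self a⟩, mem_range_self _, ?_⟩⟩
  exact hg ⟨f a, mem_range_self a⟩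

section enum

variable {M : Type}

/-- position of a point in a finite set -/
noncomputable def posOf (Z : Finset M) (x : M) : ℕ :=
  open Classical in if h : x ∈ Z then (Z.equivFin ⟨x, h⟩ : ℕ) else 0

/-- enumeration of a finite set -/
noncomputable def enum (Z : Finset M) (i : Fin Z.card) : M := Z.equivFin.symm i

lemma enum_mem (Z : Finset M) (i : Fin Z.card) : enum Z i ∈ Z := (Z.equivFin.symm i).2

lemma enum_injective (Z : Finset M) : Function.Injective (enum Z) := by
  intro i j h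
  exact Z.equivFin.symm.injective (Subtype.ext h)

lemma posOf_enum (Z : Finset M) (i : Fin Z.card) : posOf Z (enum Z i) = i := by
  unfold posOf
  rw [dif_pos (enum_mem Z i)]
  have : (⟨enum Z i, enum_mem Z i⟩ : Z) = Z.equivFin.symm i := rfl
  rw [this, Equiv.apply_symm_apply]

lemma exists_enum {Z : Finset M} {x : M} (hx : x ∈ Z) : ∃ i, enum Z i = x := by
  refine ⟨Z.equivFin ⟨x, hx⟩, ?_⟩
  unfold enum
  rw [Equiv.symm_apply_apply]

lemma posOf_lt {Z : Finset M} {x : M} (hx : x ∈ Z) : posOf Z x < Z.card := by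
  obtain ⟨i, rfl⟩ := exists_enum hx
  rw [posOf_enum]
  exact i.2

lemma posOf_inj {Z : Finset M} {x y : M} (hx : x ∈ Z) (hy : y ∈ Z) (h : posOf Z x = posOf Z y) :
    x = y := by
  obtain ⟨i, rfl⟩ := exists_enum hx
  obtain ⟨j, rfl⟩ := exists_enum hy
  rw [posOf_enum, posOf_enum] at h
  rw [Fin.ext h]

lemma L_cast (L : ∀ r, (Fin r → M) → ℕ) {r r' : ℕ} (h : r = r') (f : Fin r → M) :
    L r f = L r' (f ∘ Fin.cast h.symm) := by
  subst h
  rfl

/-- the exchange of two disjoint finite sets of the same size -/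
lemma exists_exchange {Z Z' : Finset M} (hcard : Z.card = Z'.card)
    (hdis : ∀ x ∈ Z, x ∉ Z') :
    ∃ σ : Equiv.Perm M, (∀ x, σ (σ x) = x) ∧ (∀ x, x ∉ Z → x ∉ Z' → σ x = x) ∧
      (∀ x ∈ Z, σ x ∈ Z' ∧ posOf Z' (σ x) = posOf Z x) ∧
      (∀ x ∈ Z', σ x ∈ Z ∧ posOf Z (σ x) = posOf Z' x) ∧
      ∀ i : Fin Z.card, σ (enum Z i) = enum Z' (Fin.cast hcard i) := by
  classical
  -- the two maps
  have h1 : ∀ x, ∃ y, x ∈ Z → y ∈ Z' ∧ posOf Z' y = posOf Z x := by
    intro x
    by_cases hx : x ∈ Z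
    · refine ⟨enum Z' ⟨posOf Z x, hcard ▸ posOf_lt hx⟩, fun _ => ⟨enum_mem _ _, ?_⟩⟩
      rw [posOf_enum]
    · exact ⟨x, fun h => absurd h hx⟩
  have h2 : ∀ x, ∃ y, x ∈ Z' → y ∈ Z ∧ posOf Z y = posOf Z' x := by
    intro x
    by_cases hx : x ∈ Z'
    · refine ⟨enum Z ⟨posOf Z' x, hcard ▸ posOf_lt hx⟩, fun _ => ⟨enum_mem _ _, ?_⟩⟩
      rw [posOf_enum]
    · exact ⟨x, fun h => absurd h hx⟩
  choose f hf using h1
  choose g hg using h2
  set s : M → M := fun x => if x ∈ Z then f x else if x ∈ Z' then g x else x with hs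
  have hsZ : ∀ x ∈ Z, s x = f x := fun x hx => if_pos hx
  have hsZ' : ∀ x ∈ Z', s x = g x := fun x hx => by
    have : x ∉ Z := fun h => hdis x h hx
    simp only [hs, if_neg this, if_pos hx]
  have hsO : ∀ x, x ∉ Z → x ∉ Z' → s x = x := fun x hx hx' => by
    simp only [hs, if_neg hx, if_neg hx']
  have hss : Function.Involutive s := by
    intro x
    by_cases hx : x ∈ Z
    · obtain ⟨h3, h4⟩ := hf x hx
      obtain ⟨h5, h6⟩ := hg (f x) h3
      rw [hsZ x hx, hsZ' _ h3]
      exact posOf_inj h5 hx (h6.trans h4)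
    · by_cases hx' : x ∈ Z'
      · obtain ⟨h3, h4⟩ := hg x hx'
        obtain ⟨h5, h6⟩ := hf (g x) h3
        rw [hsZ' x hx', hsZ _ h3]
        exact posOf_inj h5 hx' (h6.trans h4)
      · rw [hsO x hx hx', hsO x hx hx']
  refine ⟨hss.toPerm, hss, hsO, ?_, ?_, ?_⟩
  · intro x hx
    change s x ∈ Z' ∧ posOf Z' (s x) = posOf Z x
    rw [hsZ x hx]
    exact hf x hx
  · intro x hx
    change s x ∈ Z ∧ posOf Z (s x) = posOf Z' x
    rw [hsZ' x hx]
    exact hg x hx
  · intro i
    change s (enum Z i) = _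
    rw [hsZ _ (enum_mem Z i)]
    obtain ⟨h3, h4⟩ := hf _ (enum_mem Z i)
    refine posOf_inj h3 (enum_mem _ _) ?_
    rw [h4, posOf_enum, posOf_enum]
    rfl

end enum

theorem orb_thm (hRI : T_RI) (hEX : T_EXCH) : T_ORB := by
  classical
  intro M C c m K F hG hO Ω cl β hΩ hFK hcl n
  -- types of tuples
  have hL := fun r => exists_L hG r
  choose L hLfin hLTT using hL
  -- code of a point
  set P : M → M ⊕ (ℕ × ℕ × ℕ) := fun x => if x ∈ Ω then Sum.inl x else
    Sum.inr ((cl x).card, L _ (enum (cl x)), posOf (cl x) x) with hP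
  have hPin : ∀ x ∈ Ω, P x = Sum.inl x := fun x hx => if_pos hx
  have hPout : ∀ x, x ∉ Ω → P x = Sum.inr ((cl x).card, L _ (enum (cl x)), posOf (cl x) x) :=
    fun x hx => if_neg hx
  have hPΩ : ∀ x y, P x = P y → (x ∈ Ω ↔ y ∈ Ω) := by
    intro x y h
    by_cases hx : x ∈ Ω
    · by_cases hy : y ∈ Ω
      · exact ⟨fun _ => hy, fun _ => hx⟩
      · rw [hPin x hx, hPout y hy] at h
        exact absurd h (by simp)
    · by_cases hy : y ∈ Ω
      · rw [hPin y hy, hPout x hx] at h
        exact absurd h (by simp)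
      · exact ⟨fun h => absurd h hx, fun h => absurd h hy⟩
  have hPfin : (range P).Finite := by
    have h1 : (⋃ r ∈ Finset.range (β + 1), range (L r)).Finite :=
      (Finset.finite_toSet _).biUnion fun r _ => hLfin r
    have h2 : ((Finset.range (β + 1) : Set ℕ) ×ˢ ((⋃ r ∈ Finset.range (β + 1), range (L r)) ×ˢ
        (Finset.range (β + 1) : Set ℕ))).Finite :=
      (Finset.finite_toSet _).prod (h1.prod (Finset.finite_toSet _))
    refine ((hΩ.image Sum.inl).union (h2.image Sum.inr)).subset ?_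
    rintro _ ⟨x, rfl⟩
    by_cases hx : x ∈ Ω
    · left
      exact ⟨x, hx, (hPin x hx).symm⟩
    · right
      obtain ⟨hx1, hx2, -, -⟩ := hcl x hx
      refine ⟨_, ⟨?_, ?_, ?_⟩, (hPout x hx).symm⟩
      · simp only [Finset.coe_range, mem_Iio]
        omega
      · simp only [mem_iUnion]
        exact ⟨_, by simp only [Finset.mem_range]; omega, mem_range_self _⟩
      · have := posOf_lt hx1
        simp only [Finset.coe_range, mem_Iio]
        omega
  -- code of a tuple
  set Q : (Fin n → M) → (Fin n → M ⊕ (ℕ × ℕ × ℕ)) × (Fin n → Fin n → Prop) :=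
    fun a => (fun i => P (a i), fun i j => cl (a i) = cl (a j)) with hQ
  have hQfin : (range Q).Finite := by
    refine ((Set.Finite.pi fun _ : Fin n => hPfin).prod
      (Set.finite_univ (α := Fin n → Fin n → Prop))).subset ?_
    rintro _ ⟨a, rfl⟩
    exact ⟨fun i _ => mem_range_self _, mem_univ _⟩
  obtain ⟨E, hE, hE2⟩ := exists_reps Q hQfin
  refine ⟨E, hE, fun a => ?_⟩
  obtain ⟨e, he, hea⟩ := hE2 a
  refine ⟨e, he, ?_⟩
  have hcodeP : ∀ i, P (e i) = P (a i) := fun i => congrFun (congrArg Prod.fst hea) i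
  have hcodeC : ∀ i j, (cl (e i) = cl (e j)) = (cl (a i) = cl (a j)) := fun i j =>
    congrFun (congrFun (congrArg Prod.snd hea) i) j
  -- good permutations
  let HP : Equiv.Perm M → Prop := fun g => g ∈ FinAut c ∧ (∀ x, P (g x) = P x) ∧
    ∀ x y, x ∉ Ω → y ∉ Ω → (cl (g x) = cl (g y) ↔ cl x = cl y)
  have hHP1 : HP 1 := ⟨(FinAut c).one_mem, fun x => rfl, fun x y _ _ => Iff.rfl⟩
  have hHPmul : ∀ g g', HP g → HP g' → HP (g * g') := by
    rintro g g' ⟨h1, h2, h3⟩ ⟨h1', h2', h3'⟩
    refine ⟨(FinAut c).mul_mem h1 h1', fun x => ?_, fun x y hx hy => ?_⟩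
    · rw [Equiv.Perm.mul_apply, h2, h2']
    · rw [Equiv.Perm.mul_apply, Equiv.Perm.mul_apply, h3 _ _ _ _, h3' _ _ hx hy]
      · rw [hPΩ _ _ (h2' x)]; exact hx
      · rw [hPΩ _ _ (h2' y)]; exact hy
  -- exchanges
  have hexch : ∀ x x', x ∉ Ω → x' ∉ Ω → P x = P x' → cl x ≠ cl x' → ∃ σ, HP σ ∧ σ x = x' ∧
      ∀ y, y ∉ cl x → y ∉ cl x' → σ y = y := by
    intro x x' hx hx' hPx hne
    rw [hPout x hx, hPout x' hx'] at hPx
    have hPx := Sum.inr_injective hPx
    simp only [Prod.mk.injEq] at hPx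
    obtain ⟨hcard, hLL, hpos⟩ := hPx
    obtain ⟨hx1, hx2, hx3, hx4⟩ := hcl x hx
    obtain ⟨hx1', hx2', hx3', hx4'⟩ := hcl x' hx'
    have hdis : ∀ y ∈ cl x, y ∉ cl x' := by
      intro y hy hy'
      exact hne ((hx3 y hy).2.symm.trans (hx3' y hy').2)
    obtain ⟨σ, hσσ, hσO, hσZ, hσZ', hσe⟩ := exists_exchange hcard hdis
    have himg : σ '' (cl x : Set M) = (cl x' : Set M) := by
      ext y
      constructor
      · rintro ⟨z, hz, rfl⟩
        exact (hσZ z hz).1
      · intro hy
        exact ⟨σ y, (hσZ' y hy).1, hσσ y⟩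
    have hcl_out : ∀ y, y ∉ Ω → y ∉ cl x → cl y ≠ cl x := by
      intro y hy hyx h
      exact hyx (h ▸ (hcl y hy).1)
    have hcl_out' : ∀ y, y ∉ Ω → y ∉ cl x' → cl y ≠ cl x' := by
      intro y hy hyx h
      exact hyx (h ▸ (hcl y hy).1)
    have hTT : TT c K (cl x : Set M) (id : M → M) σ := by
      have hr : enum (cl x) '' univ = (cl x : Set M) := by
        ext y
        constructor
        · rintro ⟨i, -, rfl⟩
          exact enum_mem _ _
        · intro hy
          obtain ⟨i, hi⟩ := exists_enum (Finset.mem_coe.1 hy)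
          exact ⟨i, mem_univ _, hi⟩
      have := (hRI M C c K (Fin (cl x).card) M (enum (cl x)) univ ∅
        (enum_injective _).injOn (disjoint_empty _) id σ).1
      rw [hr] at this
      rw [this]
      have h1 : (σ ∘ enum (cl x)) = enum (cl x') ∘ Fin.cast hcard := by
        funext i
        exact hσe i
      rw [h1]
      refine hLTT _ _ _ ?_
      rw [Function.id_comp, hLL]
      exact L_cast L hcard.symm (enum (cl x'))
    have hσaut : ∀ l : List M, c (l.map σ) = c l := by
      refine hEX M C c m K F hG hO (cl x : Set M) σ (Finset.finite_toSet _) ?_ ?_ ?_ ?_ ?_ hσσ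
        ?_ hTT
      · rw [disjoint_left]
        intro y hy hy'
        exact (hx3 y hy).1 (hFK (Or.symm hy'))
      · rw [himg, disjoint_left]
        intro y hy hy'
        exact (hx3' y hy).1 (hFK (Or.symm hy'))
      · rw [himg, disjoint_left]
        exact fun y hy hy' => hdis y hy hy'
      · intro W hW hex z hz
        exact hx4 W hW hex hz
      · rw [himg]
        intro W hW hex z hz
        exact hx4' W hW hex hz
      · rw [himg]
        intro y hy hy'
        exact hσO y hy hy'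
    have hclσ : ∀ y, y ∉ Ω → cl (σ y) = Equiv.swap (cl x) (cl x') (cl y) := by
      intro y hy
      by_cases h1 : y ∈ cl x
      · rw [(hx3' _ (hσZ y h1).1).2, (hx3 y h1).2, Equiv.swap_apply_left]
      · by_cases h2 : y ∈ cl x'
        · rw [(hx3 _ (hσZ' y h2).1).2, (hx3' y h2).2, Equiv.swap_apply_right]
        · rw [hσO y h1 h2, Equiv.swap_apply_of_ne_of_ne (hcl_out y hy h1) (hcl_out' y hy h2)]
    refine ⟨σ, ⟨⟨?_, hσaut⟩, ?_, ?_⟩, ?_, hσO⟩
    · refine ((cl x).finite_toSet.union (cl x').finite_toSet).subset ?_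
      intro y hy
      by_contra h
      simp only [mem_union, Finset.mem_coe, not_or] at h
      exact hy (hσO y h.1 h.2)
    · intro y
      by_cases h1 : y ∈ cl x
      · obtain ⟨h3, h4⟩ := hσZ y h1
        rw [hPout _ (hx3' _ h3).1, hPout _ (hx3 y h1).1, (hx3' _ h3).2, (hx3 y h1).2, h4, hLL,
          hcard]
      · by_cases h2 : y ∈ cl x'
        · obtain ⟨h3, h4⟩ := hσZ' y h2
          rw [hPout _ (hx3 _ h3).1, hPout _ (hx3' y h2).1, (hx3 _ h3).2, (hx3' y h2).2, h4,
            ← hLL, ← hcard]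
        · rw [hσO y h1 h2]
    · intro y z hy hz
      rw [hclσ y hy, hclσ z hz]
      exact (Equiv.swap (cl x) (cl x')).injective.eq_iff
    · obtain ⟨h3, h4⟩ := hσZ x hx1
      exact posOf_inj h3 hx1' (h4.trans hpos)
  -- induction
  have hind : ∀ k : ℕ, ∃ h, HP h ∧ ∀ i : Fin n, i.val < k → h (e i) = a i := by
    intro k
    induction k with
    | zero => exact ⟨1, hHP1, fun i hi => absurd hi (Nat.not_lt_zero _)⟩
    | succ k ih =>
      obtain ⟨h, hh, hh2⟩ := ih
      by_cases hk : k < n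
      swap
      · refine ⟨h, hh, fun i hi => hh2 i ?_⟩
        have := i.2
        omega
      set i0 : Fin n := ⟨k, hk⟩ with hi0
      by_cases hxx : h (e i0) = a i0
      · refine ⟨h, hh, fun i hi => ?_⟩
        by_cases hik : i.val < k
        · exact hh2 i hik
        · have : i = i0 := Fin.ext (by simp only [hi0]; omega)
          rw [this, hxx]
      have hPx : P (h (e i0)) = P (a i0) := (hh.2.1 _).trans (hcodeP i0)
      have hxΩ : h (e i0) ∉ Ω := by
        intro hx
        have hx' := (hPΩ _ _ hPx).1 hx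
        rw [hPin _ hx, hPin _ hx'] at hPx
        exact hxx (Sum.inl_injective hPx)
      have hxΩ' : a i0 ∉ Ω := fun hx => hxΩ ((hPΩ _ _ hPx).2 hx)
      have heΩ : e i0 ∉ Ω := fun hx => hxΩ' ((hPΩ _ _ (hcodeP i0)).1 hx)
      obtain ⟨hx1, -, hx3, -⟩ := hcl _ hxΩ
      obtain ⟨hx1', -, hx3', -⟩ := hcl _ hxΩ'
      have hne : cl (h (e i0)) ≠ cl (a i0) := by
        intro hcc
        apply hxx
        have h5 := hPx
        rw [hPout _ hxΩ, hPout _ hxΩ'] at h5
        have h6 := Sum.inr_injective h5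
        simp only [Prod.mk.injEq] at h6
        have h7 := h6.2.2
        rw [hcc] at h7
        exact posOf_inj (hcc ▸ hx1) hx1' h7
      obtain ⟨σ, hσ, hσx, hσO⟩ := hexch _ _ hxΩ hxΩ' hPx hne
      refine ⟨σ * h, hHPmul _ _ hσ hh, fun i hi => ?_⟩
      rw [Equiv.Perm.mul_apply]
      by_cases hik : i.val < k
      · rw [hh2 i hik]
        have hhi := hh2 i hik
        refine hσO _ ?_ ?_
        · intro hmem
          obtain ⟨h5, h6⟩ := hx3 _ hmem
          have heiΩ : e i ∉ Ω := fun hx => h5 ((hPΩ _ _ (hcodeP i)).1 hx)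
          have h7 : cl (h (e i)) = cl (h (e i0)) := by rw [hhi, h6]
          rw [hh.2.2 _ _ heiΩ heΩ] at h7
          have h8 : cl (a i) = cl (a i0) := (hcodeC i i0) ▸ h7
          exact hne (h6.symm.trans h8)
        · intro hmem
          obtain ⟨h5, h6⟩ := hx3' _ hmem
          have heiΩ : e i ∉ Ω := fun hx => h5 ((hPΩ _ _ (hcodeP i)).1 hx)
          have h7 : cl (e i) = cl (e i0) := (hcodeC i i0).symm ▸ h6
          rw [← hh.2.2 _ _ heiΩ heΩ, hhi] at h7
          exact hne (h7.symm.trans h6)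
      · have : i = i0 := Fin.ext (by simp only [hi0]; omega)
        rw [this, hσx]
  obtain ⟨h, hh, hh2⟩ := hind n
  exact ⟨h, hh.1, fun i => hh2 i i.2⟩

end Pool.Agent.H96.UV
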